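import Pool.Agent.Y767.HC.Stm
import Pool.Agent.Y772.SL.Gal

/-!
# Mertens' theorem for the prime ideals of a number field (job HC-MER)
-/

set_option autoImplicit false

open NumberField Complex Filter Topology Ideal
open scoped ArithmeticFunction.vonMangoldt

namespace Pool.Agent.Y772.HC

open Pool.Agent.Y773 Pool.Agent.Y767 Pool.Agent.Y772.SL Pool.Agent.Y772.NZ

variable {K : Type} [Field K] [NumberField K]

lemma cK_norm (n : ℕ) : ‖cK K n‖ =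
    Real.sqrt (∑ᶠ 𝔞 ∈ {𝔞 : Ideal (𝓞 K) | absNorm 𝔞 = n}, VM 𝔞 ^ 2) / Λ n := by
  unfold cK
  rw [Complex.norm_real, Real.norm_of_nonneg]
  exact div_nonneg (Real.sqrt_nonneg _) ArithmeticFunction.vonMangoldt_nonneg

lemma cK_le (n : ℕ) : ‖cK K n‖ ≤ Module.finrank ℚ K := by
  rw [cK_norm]
  have hΛ : 0 ≤ Λ n := ArithmeticFunction.vonMangoldt_nonneg
  have hfin : {𝔞 : Ideal (𝓞 K) | absNorm 𝔞 = n}.Finite := Ideal.finite_setOfPred_absNorm_eq n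
  have h1 := DK.sum_VM_le (K := K) n
  unfold DK.NN at h1
  rw [finsum_mem_eq_finite_toFinset_sum _ hfin] at h1 ⊢
  have h2 : ∑ 𝔞 ∈ hfin.toFinset, VM 𝔞 ^ 2 ≤ (∑ 𝔞 ∈ hfin.toFinset, VM 𝔞) ^ 2 :=
    Finset.sum_sq_le_sq_sum_of_nonneg fun 𝔞 _ => DK.VM_nonneg 𝔞
  have h3 : 0 ≤ ∑ 𝔞 ∈ hfin.toFinset, VM 𝔞 := Finset.sum_nonneg fun 𝔞 _ => DK.VM_nonneg 𝔞
  have h4 : Real.sqrt (∑ 𝔞 ∈ hfin.toFinset, VM 𝔞 ^ 2) ≤ Module.finrank ℚ K * Λ n := by
    refine (Real.sqrt_le_sqrt h2).trans ?_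
    rw [Real.sqrt_sq h3]
    exact h1
  rcases hΛ.eq_or_lt with h5 | h5
  · rw [← h5, div_zero]
    exact Nat.cast_nonneg _
  · rw [div_le_iff₀ h5]
    exact h4

lemma cK_prime {p : ℕ} (hp : p.Prime) : ‖cK K p‖ ^ 2 = (cc (one K) p).re := by
  have hl : 0 < Real.log p := Real.log_pos (by exact_mod_cast hp.one_lt)
  have hfin : {𝔞 : Ideal (𝓞 K) | absNorm 𝔞 = p}.Finite := Ideal.finite_setOfPred_absNorm_eq p
  have h1 : ∀ 𝔞 ∈ hfin.toFinset, VM 𝔞 = Real.log p ∧ 𝔞 ≠ 0 := by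
    intro 𝔞 h𝔞
    rw [Set.Finite.mem_toFinset] at h𝔞
    have h3 : absNorm 𝔞 = p := h𝔞
    have h4 : 𝔞.IsPrime := isPrime_of_irreducible_absNorm (by rw [h3]; exact hp)
    have h5 : 𝔞 ≠ ⊥ := ne_bot_of_norm hp h3
    have h6 : Prime 𝔞 := prime_of_isPrime h5 h4
    have h7 := DK.VM_pow h6 one_ne_zero
    rw [pow_one, h3] at h7
    exact ⟨h7, h5⟩
  rw [cK_norm, DK.cc_prime (one K) hp, ArithmeticFunction.vonMangoldt_apply_prime hp,
    finsum_mem_eq_finite_toFinset_sum _ hfin, finsum_mem_eq_finite_toFinset_sum _ hfin,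
    Finset.sum_congr rfl fun 𝔞 h => by rw [(h1 𝔞 h).1],
    Finset.sum_congr rfl fun 𝔞 h => one_ne K (h1 𝔞 h).2, Finset.sum_const, Finset.sum_const,
    nsmul_eq_mul, nsmul_eq_mul, mul_one, natCast_re, div_pow, Real.sq_sqrt (by positivity)]
  field_simp

theorem t_mer : StMer := by
  intro K _ _
  obtain ⟨A, hA, hDK⟩ := DK.t_dirK K
  have hb := (hDK (one K) (one_norm K)).2.2.2.2.2.2.1
  exact selE_of (cK K) cK_le (fun n => (cc (one K) n).re)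
    (fun n => (abs_re_le_norm _).trans (hb n)) ∅ (fun p hp _ => cK_prime hp) (lim_one DK.t_dirK K)

end Pool.Agent.Y772.HC
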