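import Pool.Agent.Y767.HC.Defs
import Pool.Agent.Y772.FE.Main

/-!
# Shifted gamma factors of degree `d`
-/

set_option autoImplicit false

open Complex Filter Topology Set MeasureTheory Asymptotics
open H370.DL (refl hasDerivAt_refl analyticAt_refl im_osc re_osc eventually_im_ne
  ne_neg_nat_of_im logDeriv_refl order_refl Gammaℝ_ne_zero_of_im analyticAt_Gammaℝ
  logDeriv_Gammaℝ_bound)
open Pool.Agent.Y767 (GGn FEn)
open Pool.Agent.W820.TW (inv_Gamma_le conj_real_cpow)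
open Pool.Agent.Y772.FE (cpow_R_ne an_R conj_Gammaℝ inv_Gammaℝ_le norm_Gammaℝ_edge)

namespace Pool.Agent.Y772.HC

variable {ι : Type} [Fintype ι]

lemma im_add (s : ℂ) (n : ℕ) (t : ℝ) : (s + n + I * t).im = s.im + t := by simp

lemma re_add (s : ℂ) (n : ℕ) (t : ℝ) : (s + n + I * t).re = s.re + n := by simp

/-- no pole of the gamma factors -/
def Gd (ν : ι → ℝ) (s : ℂ) : Prop := ∀ i, s.im + ν i ≠ 0

lemma GGn_ne {R : ℝ} (hR : 0 < R) (e : ι → ℕ) {ν : ι → ℝ} {s : ℂ} (hs : Gd ν s) :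
    GGn R e ν s ≠ 0 := by
  unfold GGn
  refine mul_ne_zero (cpow_R_ne hR _) (Finset.prod_ne_zero_iff.2 fun i _ => ?_)
  exact Gammaℝ_ne_zero_of_im (by rw [im_add]; exact hs i)

lemma an_Gam' (n : ℕ) (t : ℝ) {s : ℂ} (hs : s.im + t ≠ 0) :
    AnalyticAt ℂ (fun z : ℂ => Gammaℝ (z + n + I * t)) s := by
  have h1 : AnalyticAt ℂ (fun z : ℂ => z + (n : ℂ) + I * t) s := by fun_prop
  exact (analyticAt_Gammaℝ (by rwa [im_add])).fun_comp h1

lemma GGn_an {R : ℝ} (hR : 0 < R) (e : ι → ℕ) {ν : ι → ℝ} {s : ℂ} (hs : Gd ν s) :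
    AnalyticAt ℂ (GGn R e ν) s := by
  have h1 : AnalyticAt ℂ (fun z : ℂ => ∏ i, Gammaℝ (z + e i + I * ν i)) s :=
    Finset.analyticAt_fun_prod _ fun i _ => an_Gam' (e i) (ν i) (hs i)
  exact (an_R hR s).mul h1

lemma conj_GGn {R : ℝ} (hR : 0 < R) (e : ι → ℕ) (ν : ι → ℝ) (z : ℂ) :
    (starRingEnd ℂ) (GGn R e ν z) = GGn R e (fun i => -ν i) ((starRingEnd ℂ) z) := by
  unfold GGn
  rw [map_mul, conj_real_cpow hR, map_prod]
  congr 1
  · simp only [map_div₀, map_ofNat]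
  · refine Finset.prod_congr rfl fun i _ => ?_
    rw [conj_Gammaℝ]
    congr 1
    simp only [map_add, map_mul, map_natCast, conj_I, conj_ofReal, ofReal_neg]
    ring

/-- the factor of the asymmetric functional equation -/
noncomputable def LX (w : ℂ) (R : ℝ) (e : ι → ℕ) (ν : ι → ℝ) (z : ℂ) : ℂ :=
  w * GGn R e (fun i => -ν i) (1 - z) / GGn R e ν z

lemma Gd_one_sub {ν : ι → ℝ} {s : ℂ} (hs : Gd ν s) : Gd (fun i => -ν i) (1 - s) := by
  intro i h
  apply hs i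
  have : (1 - s).im = -s.im := by simp
  rw [this] at h
  linarith

lemma LX_ne {w : ℂ} (hw : w ≠ 0) {R : ℝ} (hR : 0 < R) (e : ι → ℕ) {ν : ι → ℝ} {s : ℂ}
    (hs : Gd ν s) : LX w R e ν s ≠ 0 :=
  div_ne_zero (mul_ne_zero hw (GGn_ne hR e (Gd_one_sub hs))) (GGn_ne hR e hs)

lemma LX_an (w : ℂ) {R : ℝ} (hR : 0 < R) (e : ι → ℕ) {ν : ι → ℝ} {s : ℂ} (hs : Gd ν s) :
    AnalyticAt ℂ (LX w R e ν) s := by
  have h0 : AnalyticAt ℂ (fun z : ℂ => 1 - z) s := by fun_prop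
  have h1 : AnalyticAt ℂ (fun z : ℂ => GGn R e (fun i => -ν i) (1 - z)) s :=
    (GGn_an hR e (Gd_one_sub hs)).fun_comp h0
  exact (analyticAt_const.mul h1).div (GGn_an hR e hs) (GGn_ne hR e hs)

theorem fe_asym {R : ℝ} (hR : 0 < R) {e : ι → ℕ} {ν : ι → ℝ} {F : ℂ → ℂ} (hF : FEn R e ν F) :
    ∃ w : ℂ, ‖w‖ = 1 ∧ ∀ z : ℂ, Gd ν z → F z = LX w R e ν z * refl F z := by
  obtain ⟨w, hw, h⟩ := hF.fe
  refine ⟨w, hw, fun z hz => ?_⟩
  have h1 := h z hz
  rw [map_mul, conj_GGn hR] at h1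
  have e1 : (starRingEnd ℂ) (1 - (starRingEnd ℂ) z) = 1 - z := by simp
  rw [e1] at h1
  have hg := GGn_ne hR e hz
  unfold LX H370.DL.refl
  field_simp
  linear_combination h1

lemma eventually_Gd {ν : ι → ℝ} {s : ℂ} (hs : Gd ν s) : ∀ᶠ z in 𝓝 s, Gd ν z := by
  unfold Gd
  rw [Filter.eventually_all]
  intro i
  exact (isOpen_ne_fun (continuous_im.add continuous_const) continuous_const).mem_nhds (hs i)

/-! ### logarithmic derivatives -/

lemma logDeriv_GGn {R : ℝ} (hR : 0 < R) (e : ι → ℕ) {ν : ι → ℝ} {s : ℂ} (hs : Gd ν s) :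
    logDeriv (GGn R e ν) s =
      (Real.log R : ℂ) / 2 + ∑ i, logDeriv Gammaℝ (s + e i + I * ν i) := by
  have hRc : (R : ℂ) ≠ 0 := ofReal_ne_zero.mpr hR.ne'
  have h1 : logDeriv (fun z : ℂ => (R : ℂ) ^ (z / 2)) s = (Real.log R : ℂ) / 2 := by
    have h2 : HasDerivAt (fun z : ℂ => (R : ℂ) ^ (z / 2))
        ((R : ℂ) ^ (s / 2) * Complex.log (R : ℂ) * (1 / 2)) s :=
      ((hasDerivAt_id s).div_const 2).const_cpow (Or.inl hRc)
    rw [logDeriv_apply, h2.deriv, ← Complex.ofReal_log hR.le]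
    have := cpow_R_ne hR (s / 2)
    field_simp
  have h3 : ∀ i, logDeriv (fun z : ℂ => Gammaℝ (z + e i + I * ν i)) s =
      logDeriv Gammaℝ (s + e i + I * ν i) := by
    intro i
    have ha : DifferentiableAt ℂ Gammaℝ (s + e i + I * ν i) :=
      (analyticAt_Gammaℝ (by rw [im_add]; exact hs i)).differentiableAt
    have hb : HasDerivAt (fun z : ℂ => z + (e i : ℂ) + I * ν i) 1 s :=
      ((hasDerivAt_id s).add_const _).add_const _
    have hc : HasDerivAt (fun z : ℂ => Gammaℝ (z + e i + I * ν i))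
        (deriv Gammaℝ (s + e i + I * ν i)) s := by
      simpa [Function.comp_def] using HasDerivAt.comp s ha.hasDerivAt hb
    rw [logDeriv_apply, hc.deriv, logDeriv_apply]
  have h4 : logDeriv (fun z : ℂ => ∏ i, Gammaℝ (z + e i + I * ν i)) s =
      ∑ i, logDeriv (fun z : ℂ => Gammaℝ (z + e i + I * ν i)) s :=
    logDeriv_prod (f := fun i (z : ℂ) => Gammaℝ (z + e i + I * ν i))
      (fun i _ => Gammaℝ_ne_zero_of_im (by rw [im_add]; exact hs i))
      (fun i _ => (an_Gam' (e i) (ν i) (hs i)).differentiableAt)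
  have h5 : logDeriv (GGn R e ν) s = logDeriv (fun z : ℂ => (R : ℂ) ^ (z / 2)) s +
      logDeriv (fun z : ℂ => ∏ i, Gammaℝ (z + e i + I * ν i)) s := by
    refine logDeriv_mul s (cpow_R_ne hR _) ?_ (an_R hR s).differentiableAt ?_
    · exact Finset.prod_ne_zero_iff.2 fun i _ =>
        Gammaℝ_ne_zero_of_im (by rw [im_add]; exact hs i)
    · exact (Finset.analyticAt_fun_prod _ fun i _ =>
        an_Gam' (e i) (ν i) (hs i)).differentiableAt
  rw [h5, h1, h4, Finset.sum_congr rfl fun i _ => h3 i]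

lemma logDeriv_LX {w : ℂ} (hw : w ≠ 0) {R : ℝ} (hR : 0 < R) (e : ι → ℕ) {ν : ι → ℝ} {s : ℂ}
    (hs : Gd ν s) : logDeriv (LX w R e ν) s =
      -logDeriv (GGn R e (fun i => -ν i)) (1 - s) - logDeriv (GGn R e ν) s := by
  have h0 := GGn_ne hR e (Gd_one_sub hs)
  have h0' := GGn_ne hR e hs
  have hd1 := (GGn_an hR e (Gd_one_sub hs)).differentiableAt.hasDerivAt
  have hd2 := (GGn_an hR e hs).differentiableAt.hasDerivAt
  have hd3 : HasDerivAt (fun z : ℂ => GGn R e (fun i => -ν i) (1 - z))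
      (deriv (GGn R e (fun i => -ν i)) (1 - s) * (-1)) s :=
    HasDerivAt.comp s hd1 ((hasDerivAt_id s).const_sub 1)
  have hd4 := ((hd3.const_mul w).div hd2 h0')
  have e4 : deriv (LX w R e ν) s = _ := hd4.deriv
  rw [logDeriv_apply, e4, logDeriv_apply, logDeriv_apply, LX]
  generalize GGn R e (fun i => -ν i) (1 - s) = G1 at *
  generalize GGn R e ν s = G2 at *
  field_simp

/-- the logarithmic derivative of `Γ_ℝ` a little further to the left -/
lemma logDeriv_left {C : ℝ} (hC : ∀ z : ℂ, -1 / 2 ≤ z.re → z.re ≤ 6 → 1 ≤ |z.im| →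
    ‖logDeriv Gammaℝ z - 1 / 2 * Real.log |z.im|‖ ≤ C) {z : ℂ} (h1 : -3 / 4 ≤ z.re)
    (h2 : z.re ≤ 4) (h3 : 1 ≤ |z.im|) :
    ‖logDeriv Gammaℝ z - 1 / 2 * Real.log |z.im|‖ ≤ C + 1 := by
  have hz : z.im ≠ 0 := by
    intro h
    rw [h, abs_zero] at h3
    linarith
  have hz0 : z ≠ 0 := by
    rintro rfl
    exact hz rfl
  have him : (z + 2).im = z.im := by simp
  have hre : (z + 2).re = z.re + 2 := by simp
  have e1 : Gammaℝ =ᶠ[𝓝 z] fun w => Gammaℝ (w + 2) * (2 * Real.pi / w) := by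
    filter_upwards [eventually_im_ne hz] with w hw
    have hw0 : w ≠ 0 := by
      rintro rfl
      exact hw rfl
    rw [Gammaℝ_add_two hw0]
    have : (Real.pi : ℂ) ≠ 0 := by exact_mod_cast Real.pi_pos.ne'
    field_simp
  have hd1 : HasDerivAt (fun w : ℂ => Gammaℝ (w + 2)) (deriv Gammaℝ (z + 2)) z := by
    have ha : DifferentiableAt ℂ Gammaℝ (z + 2) :=
      (analyticAt_Gammaℝ (by rwa [him])).differentiableAt
    have hb : HasDerivAt (fun w : ℂ => w + 2) 1 z := (hasDerivAt_id z).add_const _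
    simpa [Function.comp_def] using HasDerivAt.comp z ha.hasDerivAt hb
  have hd2 : HasDerivAt (fun w : ℂ => 2 * (Real.pi : ℂ) / w) (-(2 * Real.pi) / z ^ 2) z := by
    have := (hasDerivAt_inv hz0).const_mul (2 * (Real.pi : ℂ))
    refine (this.congr_deriv ?_).congr_of_eventuallyEq ?_
    · field_simp
    · exact Eventually.of_forall fun w => by simp [div_eq_mul_inv]
  have e2 : logDeriv Gammaℝ z = logDeriv Gammaℝ (z + 2) - 1 / z := by
    have e3 : deriv (fun w : ℂ => Gammaℝ (w + 2) * (2 * Real.pi / w)) z = _ := (hd1.mul hd2).deriv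
    rw [(logDeriv_congr_nhds e1).eq_of_nhds, logDeriv_apply, e3, logDeriv_apply]
    have h4 : Gammaℝ (z + 2) ≠ 0 := Gammaℝ_ne_zero_of_im (by rwa [him])
    have h5 : (Real.pi : ℂ) ≠ 0 := by exact_mod_cast Real.pi_pos.ne'
    field_simp
    ring
  have h4 := hC (z + 2) (by rw [hre]; linarith) (by rw [hre]; linarith) (by rwa [him])
  rw [him] at h4
  have h5 : ‖1 / z‖ ≤ 1 := by
    rw [norm_div, norm_one]
    exact div_le_one_of_le₀ (h3.trans (abs_im_le_norm z)) (norm_nonneg _)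
  rw [e2]
  calc ‖logDeriv Gammaℝ (z + 2) - 1 / z - 1 / 2 * Real.log |z.im|‖
      = ‖(logDeriv Gammaℝ (z + 2) - 1 / 2 * Real.log |z.im|) - 1 / z‖ := by congr 1; ring
    _ ≤ ‖logDeriv Gammaℝ (z + 2) - 1 / 2 * Real.log |z.im|‖ + ‖1 / z‖ := norm_sub_le _ _
    _ ≤ C + 1 := add_le_add h4 h5

/-- the estimate of the logarithmic derivative of the gamma factor -/
lemma GGn_est {C : ℝ} (hC : ∀ z : ℂ, -1 / 2 ≤ z.re → z.re ≤ 6 → 1 ≤ |z.im| →
    ‖logDeriv Gammaℝ z - 1 / 2 * Real.log |z.im|‖ ≤ C) {R : ℝ} (hR : 0 < R) {e : ι → ℕ}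
    (he : ∀ i, e i ≤ 1) {ν : ι → ℝ} {s : ℂ} (h1 : -3 / 4 ≤ s.re) (h2 : s.re ≤ 7 / 4)
    (h3 : ∀ i, 1 ≤ |s.im + ν i|) :
    ‖logDeriv (GGn R e ν) s -
      ((Real.log R / 2 + ∑ i, (1 / 2 * Real.log |s.im + ν i|) : ℝ) : ℂ)‖
      ≤ Fintype.card ι * (C + 1) := by
  have hs : Gd ν s := by
    intro i h
    have := h3 i
    rw [h, abs_zero] at this
    linarith
  rw [logDeriv_GGn hR e hs]
  have e1 : (Real.log R : ℂ) / 2 + ∑ i, logDeriv Gammaℝ (s + e i + I * ν i) -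
      ((Real.log R / 2 + ∑ i, (1 / 2 * Real.log |s.im + ν i|) : ℝ) : ℂ) =
      ∑ i, (logDeriv Gammaℝ (s + e i + I * ν i) -
        1 / 2 * Real.log |(s + e i + I * ν i).im|) := by
    rw [Finset.sum_sub_distrib]
    simp only [im_add]
    push_cast
    ring
  rw [e1]
  have e2 : ∀ i ∈ (Finset.univ : Finset ι),
      ‖logDeriv Gammaℝ (s + e i + I * ν i) -
        1 / 2 * Real.log |(s + e i + I * ν i).im|‖ ≤ C + 1 := by
    intro i _
    have h4 : (e i : ℝ) ≤ 1 := by exact_mod_cast he i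
    have h5 : (0 : ℝ) ≤ e i := Nat.cast_nonneg _
    exact logDeriv_left hC (by rw [re_add]; linarith) (by rw [re_add]; linarith)
      (by rw [im_add]; exact h3 i)
  refine (norm_sum_le_of_le _ e2).trans ?_
  rw [Finset.sum_const, Finset.card_univ, nsmul_eq_mul]

/-! ### the reciprocal of the gamma factor -/

lemma inv_GGn_le {R : ℝ} (hR : 0 < R) {e : ι → ℕ} (he : ∀ i, e i ≤ 1) {V : ℝ} {ν : ι → ℝ}
    (hν : ∀ i, |ν i| ≤ V) : ∃ M : ℝ, 0 ≤ M ∧
    ∀ z : ℂ, -1 / 2 ≤ z.re → z.re ≤ 3 / 2 → V + 2 ≤ |z.im| →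
      ‖(GGn R e ν z)⁻¹‖ ≤ M * Real.exp (Fintype.card ι * Real.pi * |z.im|) := by
  obtain ⟨M, hM0, hM⟩ := inv_Gammaℝ_le
  refine ⟨(R ^ (1 / 4 : ℝ) + R ^ (-(3 / 4) : ℝ)) * (M * Real.exp (Real.pi * V)) ^ Fintype.card ι,
    by positivity, fun z h1 h2 h3 => ?_⟩
  unfold GGn
  rw [mul_inv, norm_mul, ← Finset.prod_inv_distrib, norm_prod]
  have e3 : ‖((R : ℂ) ^ (z / 2))⁻¹‖ ≤ R ^ (1 / 4 : ℝ) + R ^ (-(3 / 4) : ℝ) := by
    rw [norm_inv, Complex.norm_cpow_eq_rpow_re_of_pos hR, ← Real.rpow_neg hR.le]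
    have hre : (z / 2).re = z.re / 2 := by simp
    rw [hre]
    rcases le_total 1 R with h | h
    · have := Real.rpow_le_rpow_of_exponent_le h (show -(z.re / 2) ≤ 1 / 4 by linarith)
      have h5 : 0 ≤ R ^ (-(3 / 4) : ℝ) := by positivity
      linarith
    · have := Real.rpow_le_rpow_of_exponent_ge hR h
        (show (-(3 / 4) : ℝ) ≤ -(z.re / 2) by linarith)
      have h5 : 0 ≤ R ^ (1 / 4 : ℝ) := by positivity
      linarith
  have e4 : ∏ i, ‖(Gammaℝ (z + e i + I * ν i))⁻¹‖ ≤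
      ∏ _i : ι, (M * Real.exp (Real.pi * V) * Real.exp (Real.pi * |z.im|)) := by
    refine Finset.prod_le_prod (fun i _ => norm_nonneg _) fun i _ => ?_
    have h4 : (e i : ℝ) ≤ 1 := by exact_mod_cast he i
    have h5 : (0 : ℝ) ≤ e i := Nat.cast_nonneg _
    have h8 : 2 ≤ |z.im + ν i| := by
      have := abs_sub_abs_le_abs_sub z.im (-ν i)
      rw [abs_neg, sub_neg_eq_add] at this
      have := hν i
      linarith
    have h7 := hM (z + e i + I * ν i) (by rw [re_add]; linarith) (by rw [re_add]; linarith)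
      (by rw [im_add]; exact h8)
    rw [im_add] at h7
    refine h7.trans ?_
    rw [mul_assoc, ← Real.exp_add]
    refine mul_le_mul_of_nonneg_left (Real.exp_le_exp.2 ?_) hM0
    rw [← mul_add]
    refine mul_le_mul_of_nonneg_left ?_ Real.pi_pos.le
    have := abs_add_le z.im (ν i)
    have := hν i
    linarith
  rw [Finset.prod_const, Finset.card_univ, mul_pow, ← Real.exp_nat_mul (Real.pi * |z.im|)] at e4
  calc ‖((R : ℂ) ^ (z / 2))⁻¹‖ * ∏ i, ‖(Gammaℝ (z + e i + I * ν i))⁻¹‖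
      ≤ (R ^ (1 / 4 : ℝ) + R ^ (-(3 / 4) : ℝ)) * ((M * Real.exp (Real.pi * V)) ^ Fintype.card ι *
        Real.exp (Fintype.card ι * (Real.pi * |z.im|))) := by gcongr
    _ = _ := by rw [mul_assoc (Fintype.card ι : ℝ)]; ring

/-! ### the line `Re s = -1/2` -/

lemma norm_LX {w : ℂ} (hw : ‖w‖ = 1) {R : ℝ} (hR : 0 < R) {e : ι → ℕ} (he : ∀ i, e i ≤ 1)
    {V : ℝ} {ν : ι → ℝ} (hν : ∀ i, |ν i| ≤ V) {s : ℂ}
    (hre : s.re = -1 / 2) (hs : Gd ν s) :
    ‖LX w R e ν s‖ ≤ R * ((1 + V) * ‖s + 3‖) ^ Fintype.card ι := by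
  have h0 := GGn_ne hR e hs
  unfold LX
  rw [norm_div, norm_mul, hw, one_mul, div_le_iff₀ (norm_pos_iff.2 h0)]
  unfold GGn
  rw [norm_mul, norm_mul, norm_prod, norm_prod, Complex.norm_cpow_eq_rpow_re_of_pos hR,
    Complex.norm_cpow_eq_rpow_re_of_pos hR]
  have h1 : ((1 - s) / 2).re = 1 + (s / 2).re := by
    have a1 : ((1 - s) / 2).re = (1 - s.re) / 2 := by simp
    have a2 : (s / 2).re = s.re / 2 := by simp
    rw [a1, a2, hre]
    norm_num
  rw [h1, Real.rpow_add hR, Real.rpow_one]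
  have h3 : 1 ≤ ‖s + 3‖ := by
    have h5 := (le_abs_self _).trans (Complex.abs_re_le_norm (s + 3))
    have h6 : (s + 3).re = s.re + 3 := by simp
    rw [h6, hre] at h5
    linarith
  have h2 : ∏ i, ‖Gammaℝ (1 - s + e i + I * ((-ν i : ℝ) : ℂ))‖ ≤
      ∏ i, (‖Gammaℝ (s + e i + I * ν i)‖ * ((1 + V) * ‖s + 3‖)) := by
    refine Finset.prod_le_prod (fun i _ => norm_nonneg _) fun i _ => ?_
    set z : ℂ := s + I * ν i with hz
    have hzre : z.re = -1 / 2 := by rw [hz]; simp [hre]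
    have hzim : z.im ≠ 0 := by rw [hz]; simpa using hs i
    have e1 : (1 - s + e i + I * ((-ν i : ℝ) : ℂ) : ℂ) = 1 - z + e i := by
      rw [hz]; push_cast; ring
    have e2 : (s + e i + I * ν i : ℂ) = z + e i := by rw [hz]; ring
    rw [e1, e2]
    refine (norm_Gammaℝ_edge hzre hzim (he i)).trans ?_
    refine mul_le_mul_of_nonneg_left ?_ (norm_nonneg _)
    have e3 : z + 3 = (s + 3) + I * ν i := by rw [hz]; ring
    rw [e3]
    refine (norm_add_le _ _).trans ?_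
    rw [norm_mul, norm_I, one_mul, Complex.norm_real, Real.norm_eq_abs]
    have h4 := hν i
    have h5 : 0 ≤ V := (abs_nonneg _).trans h4
    nlinarith
  rw [Finset.prod_mul_distrib, Finset.prod_const, Finset.card_univ] at h2
  calc R * R ^ (s / 2).re * ∏ i, ‖Gammaℝ (1 - s + e i + I * ((-ν i : ℝ) : ℂ))‖
      ≤ R * R ^ (s / 2).re * ((∏ i, ‖Gammaℝ (s + e i + I * ν i)‖) *
        ((1 + V) * ‖s + 3‖) ^ Fintype.card ι) := by gcongr
    _ = _ := by ring

end Pool.Agent.Y772.HC
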