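import Pool.Agent.Y767.HC.Stm
import Pool.Agent.Y772.HC.Gam

/-!
# Analytic consequences of a functional equation with shifted gamma factors (job HC-FEN)
-/

set_option autoImplicit false

open Complex Filter Topology Set MeasureTheory Asymptotics
open H370.DL (refl hasDerivAt_refl analyticAt_refl im_osc re_osc eventually_im_ne
  ne_neg_nat_of_im logDeriv_refl order_refl Gammaℝ_ne_zero_of_im analyticAt_Gammaℝ
  logDeriv_Gammaℝ_bound)
open Pool.Agent.Y767 (GGn FEn StFEn)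
open Pool.Agent.Y772.FE (HH sp3_ne)

namespace Pool.Agent.Y772.HC

variable {ι : Type} [Fintype ι]

theorem F_left_edge {R B : ℝ} (hR : 0 < R) {e : ι → ℕ} {V : ℝ} {ν : ι → ℝ}
    (hν : ∀ i, |ν i| ≤ V) {F : ℂ → ℂ}
    (hF : FEn R e ν F) (hB : ∀ s : ℂ, 3 / 2 ≤ s.re → ‖F s‖ ≤ B) (s : ℂ) (hs : s.re = -1 / 2) :
    ‖F s‖ ≤ B * R * ((1 + V) * ‖s + 3‖) ^ Fintype.card ι := by
  have hB0 : 0 ≤ B := (norm_nonneg _).trans (hB (3 / 2) (by norm_num))
  obtain ⟨w, hw, hfe⟩ := fe_asym hR hF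
  have key : ∀ z : ℂ, z.re = -1 / 2 → Gd ν z →
      ‖F z‖ ≤ B * R * ((1 + V) * ‖z + 3‖) ^ Fintype.card ι := by
    intro z hz him
    rw [hfe z him, norm_mul]
    have e1 := norm_LX hw hR hF.he hν hz him
    have e2 : ‖refl F z‖ ≤ B := by
      unfold H370.DL.refl
      rw [RCLike.norm_conj]
      apply hB
      rw [re_osc, hz]; norm_num
    calc ‖LX w R e ν z‖ * ‖refl F z‖ ≤
        (R * ((1 + V) * ‖z + 3‖) ^ Fintype.card ι) * B :=
          mul_le_mul e1 e2 (norm_nonneg _) ((norm_nonneg _).trans e1)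
      _ = _ := by ring
  have hsv : s = ((-1 / 2 : ℝ) : ℂ) + (s.im : ℂ) * I := by
    apply Complex.ext
    · simp [hs]
    · simp
  have hcont : Continuous F := hF.diff.continuous
  have h1 : Continuous (fun t : ℝ => ‖F (((-1 / 2 : ℝ) : ℂ) + (t : ℂ) * I)‖) := by fun_prop
  have h2 : Continuous (fun t : ℝ => B * R *
      ((1 + V) * ‖((-1 / 2 : ℝ) : ℂ) + (t : ℂ) * I + 3‖) ^ Fintype.card ι) := by fun_prop
  have hfin : (Set.range fun i => -ν i).Finite := Set.finite_range _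
  have h3 : ∀ t ∈ closure ((Set.range fun i => -ν i)ᶜ : Set ℝ),
      ‖F (((-1 / 2 : ℝ) : ℂ) + (t : ℂ) * I)‖ ≤
      B * R * ((1 + V) * ‖((-1 / 2 : ℝ) : ℂ) + (t : ℂ) * I + 3‖) ^ Fintype.card ι := by
    intro t ht
    refine closure_minimal ?_ (isClosed_le h1 h2) ht
    intro t ht
    have him : (((-1 / 2 : ℝ) : ℂ) + (t : ℂ) * I).im = t := by simp
    have hre : (((-1 / 2 : ℝ) : ℂ) + (t : ℂ) * I).re = -1 / 2 := by simp
    refine key (((-1 / 2 : ℝ) : ℂ) + (t : ℂ) * I) hre fun i hi => ht ⟨i, ?_⟩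
    rw [him] at hi
    simp only
    linarith
  have h4 : closure ((Set.range fun i => -ν i)ᶜ : Set ℝ) = univ :=
    (hfin.countable.dense_compl ℝ).closure_eq
  have h5 := h3 s.im (by rw [h4]; trivial)
  rwa [← hsv] at h5

theorem HH_bound {N P B V : ℝ} (hN : 1 ≤ N) (hP : 1 ≤ P) (hV : 0 ≤ V) {e : ι → ℕ} {ν : ι → ℝ}
    (hν : ∀ i, |ν i| ≤ V) {F : ℂ → ℂ}
    (hF : FEn (N * P) e ν F) (hB : ∀ s : ℂ, 3 / 2 ≤ s.re → ‖F s‖ ≤ B) (s : ℂ) (h1 : -1 / 2 ≤ s.re)
    (h2 : s.re ≤ 3 / 2) :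
    ‖HH P (Fintype.card ι) F s‖ ≤ B * N * (1 + V) ^ Fintype.card ι := by
  have hB0 : 0 ≤ B := (norm_nonneg _).trans (hB (3 / 2) (by norm_num))
  set d := Fintype.card ι with hd
  have hP0 : (0 : ℝ) < P := by linarith
  have hR : 0 < N * P := by positivity
  have hPC : (P : ℂ) ≠ 0 := by exact_mod_cast hP0.ne'
  have hV1 : 1 ≤ (1 + V) ^ d := one_le_pow₀ (by linarith)
  have hqn : ∀ z : ℂ, ‖(P : ℂ) ^ ((z - 3 / 2) / 2)‖ = P ^ ((z.re - 3 / 2) / 2) := by
    intro z
    rw [Complex.norm_cpow_eq_rpow_re_of_pos hP0]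
    congr 1
    have : ((z - 3 / 2) / 2).re = (z - 3 / 2).re / 2 := by simp
    rw [this, Complex.sub_re]; norm_num
  have hs3 : ∀ z : ℂ, ‖((z + 3) ^ d)⁻¹‖ = (‖z + 3‖ ^ d)⁻¹ := by
    intro z; rw [norm_inv, norm_pow]
  have hge1 : ∀ z : ℂ, -1 / 2 ≤ z.re → 1 ≤ ‖z + 3‖ := by
    intro z hz
    have h5 := (le_abs_self _).trans (Complex.abs_re_le_norm (z + 3))
    have h6 : (z + 3).re = z.re + 3 := by simp
    rw [h6] at h5
    linarith
  refine PhragmenLindelof.vertical_strip (f := HH P d F) (a := -1 / 2) (b := 3 / 2) ?_ ?_ ?_ ?_ h1 h2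
  · have hdd : DifferentiableOn ℂ (HH P d F) {z : ℂ | -3 < z.re} := by
      intro z hz
      have hz3 : (z + 3) ^ d ≠ 0 := pow_ne_zero _ (sp3_ne hz)
      apply DifferentiableAt.differentiableWithinAt
      unfold HH
      refine ((hF.diff z).mul ?_).mul ?_
      · exact DifferentiableAt.const_cpow (by fun_prop) (Or.inl hPC)
      · exact DifferentiableAt.inv (by fun_prop) hz3
    apply DifferentiableOn.diffContOnCl
    apply hdd.mono
    refine (Complex.continuous_re.closure_preimage_subset _).trans ?_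
    intro z hz
    have hz' : z.re ∈ closure (Ioo (-1 / 2 : ℝ) (3 / 2)) := hz
    rw [closure_Ioo (by norm_num)] at hz'
    have := hz'.1
    change -3 < z.re
    linarith
  · obtain ⟨M, hM0, hM⟩ := inv_GGn_le hR hF.he hν
    obtain ⟨C, hC'⟩ := hF.vert (-1 / 2) (3 / 2)
    refine ⟨1, ?_, d * Real.pi, ?_⟩
    · rw [show ((3 : ℝ) / 2 - -1 / 2) = 2 by norm_num]
      linarith [Real.pi_gt_three]
    refine IsBigO.of_bound (M * C) ?_
    rw [eventually_inf_principal]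
    have hev : ∀ᶠ z : ℂ in comap (abs ∘ Complex.im) atTop, V + 2 ≤ |z.im| :=
      (eventually_ge_atTop (V + 2 : ℝ)).comap (abs ∘ Complex.im)
    filter_upwards [hev] with z hz1 hz2
    have hz2' : z.re ∈ Ioo (-1 / 2 : ℝ) (3 / 2) := hz2
    have hsh : ∀ i, 2 ≤ |z.im + ν i| := by
      intro i
      have := abs_sub_abs_le_abs_sub z.im (-ν i)
      rw [abs_neg, sub_neg_eq_add] at this
      have := hν i
      linarith
    have e1 := hM z hz2'.1.le hz2'.2.le hz1
    have e2 := hC' z hz2'.1.le hz2'.2.le (fun i => by linarith [hsh i])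
    have hz0 : Gd ν z := by
      intro i h
      have := hsh i
      rw [h, abs_zero] at this
      linarith
    have hg := GGn_ne hR e hz0
    have e4 : P ^ ((z.re - 3 / 2) / 2) ≤ 1 :=
      Real.rpow_le_one_of_one_le_of_nonpos hP (by linarith [hz2'.2])
    have e5 : (‖z + 3‖ ^ d)⁻¹ ≤ 1 :=
      inv_le_one_of_one_le₀ (one_le_pow₀ (hge1 z hz2'.1.le))
    have hC0' : 0 ≤ C := (norm_nonneg _).trans e2
    have e7 : F z = (GGn (N * P) e ν z)⁻¹ * (GGn (N * P) e ν z * F z) := by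
      rw [← mul_assoc, inv_mul_cancel₀ hg, one_mul]
    unfold HH
    rw [norm_mul, norm_mul, hqn, hs3, e7, norm_mul, Real.norm_eq_abs,
      abs_of_pos (Real.exp_pos _)]
    have e6 : Real.exp (d * Real.pi * |z.im|) ≤ Real.exp (d * Real.pi * Real.exp (1 * |z.im|)) := by
      apply Real.exp_le_exp.mpr
      apply mul_le_mul_of_nonneg_left _ (by positivity)
      rw [one_mul]
      linarith [Real.add_one_le_exp |z.im|]
    have hE := (Real.exp_pos (d * Real.pi * |z.im|)).le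
    calc ‖(GGn (N * P) e ν z)⁻¹‖ * ‖GGn (N * P) e ν z * F z‖ *
          P ^ ((z.re - 3 / 2) / 2) * (‖z + 3‖ ^ d)⁻¹
        ≤ (M * Real.exp (d * Real.pi * |z.im|)) * C * 1 * 1 := by gcongr
      _ = M * C * Real.exp (d * Real.pi * |z.im|) := by ring
      _ ≤ M * C * Real.exp (d * Real.pi * Real.exp (1 * |z.im|)) := by
          apply mul_le_mul_of_nonneg_left e6
          positivity
  · intro z hz
    have e1 := F_left_edge hR hν hF hB z hz
    rw [← hd] at e1
    unfold HH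
    rw [norm_mul, norm_mul, hqn, hs3, hz]
    have e2 : P ^ (((-1 : ℝ) / 2 - 3 / 2) / 2) = P⁻¹ := by
      rw [show ((-1 : ℝ) / 2 - 3 / 2) / 2 = -1 by norm_num, Real.rpow_neg_one]
    rw [e2]
    have e4 : 0 < ‖z + 3‖ ^ d := by
      have := hge1 z (by rw [hz])
      positivity
    calc ‖F z‖ * P⁻¹ * (‖z + 3‖ ^ d)⁻¹
        ≤ (B * (N * P) * ((1 + V) * ‖z + 3‖) ^ d) * P⁻¹ * (‖z + 3‖ ^ d)⁻¹ := by gcongr
      _ = B * N * (1 + V) ^ d := by
        rw [mul_pow]
        field_simp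
  · intro z hz
    have e1 := hB z (by rw [hz])
    unfold HH
    rw [norm_mul, norm_mul, hqn, hs3, hz, sub_self, zero_div, Real.rpow_zero, mul_one]
    have e4 : 1 ≤ ‖z + 3‖ ^ d := one_le_pow₀ (hge1 z (by rw [hz]; norm_num))
    calc ‖F z‖ * (‖z + 3‖ ^ d)⁻¹ ≤ B * 1 := by
          apply mul_le_mul e1 (inv_le_one_of_one_le₀ e4) (by positivity) hB0
      _ ≤ B * N := by nlinarith
      _ ≤ B * N * (1 + V) ^ d := le_mul_of_one_le_right (by positivity) hV1

theorem F_growth {N Q B V : ℝ} (hN : 1 ≤ N) (hQ : 1 ≤ Q) (hB1 : 1 ≤ B) (hV : 0 ≤ V) {e : ι → ℕ}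
    {ν : ι → ℝ} (hν : ∀ i, |ν i| ≤ V) {F : ℂ → ℂ} (hF : FEn (N * Q ^ Fintype.card ι) e ν F)
    (hB : ∀ s : ℂ, 3 / 2 ≤ s.re → ‖F s‖ ≤ B) {A : ℝ}
    (hA : Fintype.card ι + B * N * (1 + V) ^ Fintype.card ι * 6 ^ Fintype.card ι ≤ A)
    (s : ℂ) (h1 : (1 / 16 : ℝ) ≤ s.re) (h3 : 1 ≤ s.im) :
    ‖F s‖ ≤ A * (Q * s.im) ^ A := by
  set d := Fintype.card ι with hd
  have hV1 : 1 ≤ (1 + V) ^ d := one_le_pow₀ (by linarith)
  have hBN0 : 1 ≤ B * N := by nlinarith
  set BN : ℝ := B * N * (1 + V) ^ d with hBNdef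
  have hBN : 1 ≤ BN := by
    rw [hBNdef]
    nlinarith
  have hBBN : B ≤ BN := by
    have h4 : B ≤ B * N := by nlinarith
    have h5 : B * N ≤ BN := le_mul_of_one_le_right (by linarith) hV1
    linarith
  have hQ0 : (0 : ℝ) < Q := by linarith
  have hqt : 1 ≤ Q * s.im := by nlinarith
  have hP : 1 ≤ Q ^ d := one_le_pow₀ hQ
  have hP0 : 0 < Q ^ d := by positivity
  have hc0 : 0 ≤ BN * 6 ^ d := by positivity
  have hAd : (d : ℝ) ≤ A := by linarith
  have hpow : (Q * s.im) ^ d ≤ (Q * s.im) ^ A := by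
    rw [← Real.rpow_natCast]
    exact Real.rpow_le_rpow_of_exponent_le hqt hAd
  have key : ‖F s‖ ≤ BN * 6 ^ d * (Q * s.im) ^ d := by
    rcases le_total s.re (3 / 2) with h | h
    · have e1 := HH_bound hN hP hV hν hF hB s (by linarith) h
      rw [← hd, ← hBNdef] at e1
      unfold HH at e1
      rw [norm_mul, norm_mul, norm_inv, norm_pow, Complex.norm_cpow_eq_rpow_re_of_pos hP0] at e1
      have hre : ((s - 3 / 2) / 2).re = (s.re - 3 / 2) / 2 := by
        have : ((s - 3 / 2) / 2).re = (s - 3 / 2).re / 2 := by simp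
        rw [this, Complex.sub_re]; norm_num
      rw [hre] at e1
      have e2 : 0 < ‖s + 3‖ ^ d := by
        have : s + 3 ≠ 0 := sp3_ne (by linarith)
        positivity
      have e3 : ‖s + 3‖ ^ d ≤ (6 * s.im) ^ d := by
        apply pow_le_pow_left₀ (norm_nonneg _)
        refine (norm_le_abs_re_add_abs_im _).trans ?_
        have hre' : (s + 3).re = s.re + 3 := by simp
        have him' : (s + 3).im = s.im := by simp
        rw [hre', him', abs_of_nonneg (by linarith), abs_of_nonneg (by linarith)]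
        linarith
      have e4 : (Q ^ d)⁻¹ ≤ (Q ^ d) ^ ((s.re - 3 / 2) / 2) := by
        rw [← Real.rpow_neg_one (Q ^ d)]
        apply Real.rpow_le_rpow_of_exponent_le hP
        linarith
      have e5 : ‖F s‖ * (Q ^ d)⁻¹ * (‖s + 3‖ ^ d)⁻¹ ≤ BN := by
        refine le_trans ?_ e1
        gcongr
      have e6 : ‖F s‖ ≤ BN * (‖s + 3‖ ^ d) * Q ^ d := by
        have : ‖F s‖ = (‖F s‖ * (Q ^ d)⁻¹ * (‖s + 3‖ ^ d)⁻¹) * (‖s + 3‖ ^ d) * Q ^ d := by
          have e2' := e2.ne'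
          generalize ‖s + 3‖ ^ d = M at e2' ⊢
          field_simp
        rw [this]
        gcongr
      calc ‖F s‖ ≤ BN * (‖s + 3‖ ^ d) * Q ^ d := e6
        _ ≤ BN * ((6 * s.im) ^ d) * Q ^ d := by gcongr
        _ = BN * 6 ^ d * (Q * s.im) ^ d := by rw [mul_pow, mul_pow]; ring
    · have e1 := hB s h
      have e2 : 1 ≤ (Q * s.im) ^ d := one_le_pow₀ hqt
      have e3 : B ≤ BN * 6 ^ d := by
        have h5 : (1 : ℝ) ≤ 6 ^ d := one_le_pow₀ (by norm_num)
        nlinarith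
      nlinarith
  calc ‖F s‖ ≤ BN * 6 ^ d * (Q * s.im) ^ d := key
    _ ≤ A * (Q * s.im) ^ A := by
      have : (0 : ℝ) ≤ d := Nat.cast_nonneg d
      apply mul_le_mul (by linarith) hpow (by positivity) (by linarith)

theorem F_left {C : ℝ} (hC : ∀ z : ℂ, -1 / 2 ≤ z.re → z.re ≤ 6 → 1 ≤ |z.im| →
    ‖logDeriv Gammaℝ z - 1 / 2 * Real.log |z.im|‖ ≤ C) {N Q V : ℝ} (hN : 1 ≤ N) (hQ : 1 ≤ Q)
    (hV : 0 ≤ V) {e : ι → ℕ} {ν : ι → ℝ} (hν : ∀ i, 0 ≤ ν i ∧ ν i ≤ V) {F : ℂ → ℂ}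
    (hF : FEn (N * Q ^ Fintype.card ι) e ν F)
    (s : ℂ) (h1 : -3 / 4 ≤ s.re) (h2 : s.re ≤ 1 / 2) (h3 : 1 ≤ s.im) (h4 : F s ≠ 0) :
    ‖deriv F s / F s + (((Fintype.card ι : ℝ) * Real.log (Q * s.im) : ℝ) : ℂ) +
        (starRingEnd ℂ) (deriv F (1 - (starRingEnd ℂ) s) / F (1 - (starRingEnd ℂ) s))‖ ≤
      Real.log N + Fintype.card ι * Real.log (1 + V) +
        Fintype.card ι * (C + 1) + Fintype.card ι * (C + 1) := by
  set d := Fintype.card ι with hd
  have hs : s.im ≠ 0 := by linarith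
  have hpos : ∀ i, 1 ≤ s.im + ν i := fun i => by linarith [(hν i).1]
  have hGd : Gd ν s := fun i h => by linarith [hpos i]
  have hQ0 : (0 : ℝ) < Q := by linarith
  have hR : 0 < N * Q ^ d := by positivity
  obtain ⟨w, hw, hfe⟩ := fe_asym hR hF
  have hw0 : w ≠ 0 := by
    intro h
    rw [h, norm_zero] at hw
    exact zero_ne_one hw
  have hdiff : Differentiable ℂ F := hF.diff
  have ha : AnalyticAt ℂ F (1 - (starRingEnd ℂ) s) :=
    (hdiff.differentiableOn).analyticAt Filter.univ_mem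
  have e1 : F =ᶠ[𝓝 s] fun z => LX w (N * Q ^ d) e ν z * refl F z := by
    filter_upwards [eventually_Gd hGd] with z hz
    exact hfe z hz
  have hr : refl F s ≠ 0 := by
    intro h
    apply h4
    rw [hfe s hGd, h, mul_zero]
  have e2 : logDeriv F s = logDeriv (LX w (N * Q ^ d) e ν) s + logDeriv (refl F) s := by
    rw [(logDeriv_congr_nhds e1).eq_of_nhds]
    exact logDeriv_mul s (LX_ne hw0 hR e hGd) hr (LX_an w hR e hGd).differentiableAt
      (analyticAt_refl ha).differentiableAt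
  rw [logDeriv_refl ha.differentiableAt, logDeriv_LX hw0 hR e hGd] at e2
  change ‖logDeriv F s + (((d : ℝ) * Real.log (Q * s.im) : ℝ) : ℂ) +
    (starRingEnd ℂ) (logDeriv F (1 - (starRingEnd ℂ) s))‖ ≤ _
  rw [e2]
  have i1 : ∀ i, |(1 - s).im + -ν i| = s.im + ν i := by
    intro i
    have : (1 - s).im = -s.im := by simp
    rw [this, ← neg_add, abs_neg, abs_of_nonneg (by linarith [hpos i])]
  have i2 : ∀ i, |s.im + ν i| = s.im + ν i := fun i => abs_of_nonneg (by linarith [hpos i])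
  have b1 := GGn_est hC hR hF.he (ν := fun i => -ν i) (s := 1 - s) (by simp; linarith)
    (by simp; linarith) (fun i => by rw [i1]; exact hpos i)
  have b2 := GGn_est hC hR hF.he (ν := ν) (s := s) h1 (by linarith)
    (fun i => by rw [i2]; exact hpos i)
  simp only [i1] at b1
  simp only [i2] at b2
  rw [← hd] at b1 b2
  have hlogR : Real.log (N * Q ^ d) = Real.log N + d * Real.log Q := by
    rw [Real.log_mul (by linarith) (by positivity), Real.log_pow]
  have hlogq : Real.log (Q * s.im) = Real.log Q + Real.log s.im :=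
    Real.log_mul hQ0.ne' hs
  rw [hlogR] at b1 b2
  -- the shifts in the logarithm
  set D : ℝ := ∑ i, (Real.log (s.im + ν i) - Real.log s.im) with hD
  have hDeq : ∑ i, (1 / 2 * Real.log (s.im + ν i)) = d * (1 / 2 * Real.log s.im) + D / 2 := by
    rw [hD, Finset.sum_sub_distrib, Finset.sum_const, Finset.card_univ, nsmul_eq_mul,
      ← Finset.mul_sum, ← hd]
    ring
  have hD0 : 0 ≤ D := Finset.sum_nonneg fun i _ => by
    have := Real.log_le_log (by linarith : (0 : ℝ) < s.im)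
      (by linarith [(hν i).1] : s.im ≤ s.im + ν i)
    linarith
  have hD1 : D ≤ d * Real.log (1 + V) := by
    have h5 : D ≤ ∑ _i : ι, Real.log (1 + V) := by
      refine Finset.sum_le_sum fun i _ => ?_
      have h6 : s.im + ν i ≤ (1 + V) * s.im := by
        have := (hν i).2
        nlinarith
      have h7 := Real.log_le_log (by linarith [hpos i] : (0 : ℝ) < s.im + ν i) h6
      rw [Real.log_mul (by linarith) hs] at h7
      linarith
    rw [Finset.sum_const, Finset.card_univ, nsmul_eq_mul, ← hd] at h5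
    exact h5
  rw [hDeq] at b1 b2
  set G1 := logDeriv (GGn (N * Q ^ d) e fun i => -ν i) (1 - s) with hG1
  set G2 := logDeriv (GGn (N * Q ^ d) e ν) s with hG2
  have e3 : -G1 - G2 + -(starRingEnd ℂ) (logDeriv F (1 - (starRingEnd ℂ) s)) +
        (((d : ℝ) * Real.log (Q * s.im) : ℝ) : ℂ) +
      (starRingEnd ℂ) (logDeriv F (1 - (starRingEnd ℂ) s)) =
      -((Real.log N + D : ℝ) : ℂ) -
        (G1 - (((Real.log N + d * Real.log Q) / 2 +
          (d * (1 / 2 * Real.log s.im) + D / 2) : ℝ) : ℂ)) -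
      (G2 - (((Real.log N + d * Real.log Q) / 2 +
          (d * (1 / 2 * Real.log s.im) + D / 2) : ℝ) : ℂ)) := by
    rw [hlogq]
    push_cast
    ring
  rw [e3]
  refine (norm_sub_le _ _).trans ?_
  have n1 := norm_sub_le (-((Real.log N + D : ℝ) : ℂ))
    (G1 - (((Real.log N + d * Real.log Q) / 2 +
      (d * (1 / 2 * Real.log s.im) + D / 2) : ℝ) : ℂ))
  rw [norm_neg, Complex.norm_real,
    Real.norm_of_nonneg (add_nonneg (Real.log_nonneg hN) hD0)] at n1
  linarith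

/-- FEN -/
theorem t_fen : StFEn := by
  intro ι _ _ N hN B hB1 V hV
  obtain ⟨C, hC0, hC⟩ := logDeriv_Gammaℝ_bound
  set d := Fintype.card ι with hd
  have hd0 : (0 : ℝ) ≤ d := Nat.cast_nonneg d
  have hV1 : 1 ≤ (1 + V) ^ d := one_le_pow₀ (by linarith)
  have hc0 : 1 ≤ B * N * (1 + V) ^ d * 6 ^ d := by
    have h5 : (1 : ℝ) ≤ 6 ^ d := one_le_pow₀ (by norm_num)
    have h4 : 1 ≤ B * N := by nlinarith
    have h6 : 1 ≤ B * N * (1 + V) ^ d := by nlinarith
    nlinarith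
  have hl0 : 0 ≤ Real.log N := Real.log_nonneg hN
  have hl1 : 0 ≤ Real.log (1 + V) := Real.log_nonneg (by linarith)
  have hdC : 0 ≤ (d : ℝ) * (C + 1) := mul_nonneg hd0 (by linarith)
  have hdl : 0 ≤ (d : ℝ) * Real.log (1 + V) := mul_nonneg hd0 hl1
  refine ⟨(d + B * N * (1 + V) ^ d * 6 ^ d) +
    (Real.log N + d * Real.log (1 + V) + d * (C + 1) + d * (C + 1)), by linarith, ?_⟩
  intro Q hQ e ν F hν hF hB hnz
  have hν' : ∀ i, |ν i| ≤ V := fun i => by
    rw [abs_of_nonneg (hν i).1]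
    exact (hν i).2
  have hR : 0 < N * Q ^ d := by positivity
  obtain ⟨w, hw, hfe⟩ := fe_asym hR hF
  have hw0 : w ≠ 0 := by
    intro h
    rw [h, norm_zero] at hw
    exact zero_ne_one hw
  have hGd : ∀ s : ℂ, 1 ≤ s.im → Gd ν s := fun s hs i h => by linarith [(hν i).1]
  refine ⟨?_, ?_, ?_, ?_⟩
  · intro s h1 _ h3
    exact F_growth hN hQ hB1 hV hν' hF hB (by rw [← hd]; linarith) s h1 h3
  · intro s h1 h3
    rw [hfe s (hGd s h3)]
    refine mul_ne_zero (LX_ne hw0 hR e (hGd s h3)) ?_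
    unfold H370.DL.refl
    rw [map_ne_zero]
    apply hnz
    · rw [re_osc]; linarith
    · rw [im_osc]; exact h3
  · intro s _ _ h3
    have ha : AnalyticAt ℂ F (1 - (starRingEnd ℂ) s) := hF.diff.analyticAt _
    have h1 : F =ᶠ[𝓝 s] (LX w (N * Q ^ d) e ν) * refl F := by
      filter_upwards [eventually_Gd (hGd s h3)] with z hz
      exact hfe z hz
    have hX := LX_an w hR e (hGd s h3)
    rw [analyticOrderAt_congr h1, analyticOrderAt_mul hX (analyticAt_refl ha),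
      hX.analyticOrderAt_eq_zero.mpr (LX_ne hw0 hR e (hGd s h3)), zero_add, order_refl ha]
  · intro s h1 h2' h3 h4
    have h5 := F_left hC hN hQ hV hν hF s h1 h2' h3 h4
    rw [← hd] at h5
    linarith

end Pool.Agent.Y772.HC
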